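import Mathlib

set_option autoImplicit false

namespace Pool.Agent.Results.MP_4d58d7_an.Disproof

open MeasureTheory Matrix

/-- The squared Euclidean norm of a vector. -/
def sqn {m : ℕ} (x : Fin m → ℝ) : ℝ := ∑ i, x i ^ 2

/-- The Frobenius norm. -/
noncomputable def frob {m p : ℕ} (M : Matrix (Fin m) (Fin p) ℝ) : ℝ :=
  Real.sqrt (∑ i, ∑ j, M i j ^ 2)

/-- The random matrix `Om` (defined on the space `S` with measure `μ`) is an oblivious subspace
injection of dimension `r` with injectivity `α` and failure probability `δ`. -/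
structure IsOSI {S : Type} [MeasurableSpace S] (μ : Measure S) {n k : ℕ}
    (Om : S → Matrix (Fin n) (Fin k) ℝ) (r : ℕ) (α δ : ℝ) : Prop where
  measurable : ∀ i j, Measurable fun s => Om s i j
  integrable : ∀ x : Fin n → ℝ, Integrable (fun s => sqn ((Om s)ᵀ *ᵥ x)) μ
  isotropy : ∀ x : Fin n → ℝ, ∫ s, sqn ((Om s)ᵀ *ᵥ x) ∂μ = sqn x
  injectivity : ∀ V : Submodule ℝ (Fin n → ℝ), Module.finrank ℝ V = r →
    ENNReal.ofReal (1 - δ) ≤ μ {s | ∀ x ∈ V, α * sqn x ≤ sqn ((Om s)ᵀ *ᵥ x)}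

/-- `P` is the Moore-Penrose pseudoinverse of `M` (the four Penrose conditions). -/
def IsPinv {m d : ℕ} (M : Matrix (Fin m) (Fin d) ℝ) (P : Matrix (Fin d) (Fin m) ℝ) : Prop :=
  M * P * M = M ∧ P * M * P = P ∧ (M * P)ᵀ = M * P ∧ (P * M)ᵀ = P * M

/-- The optimal value of the least-squares problem. -/
noncomputable def OPT {n d p : ℕ} (A : Matrix (Fin n) (Fin d) ℝ) (B : Matrix (Fin n) (Fin p) ℝ) :
    ℝ :=
  sInf (Set.range fun X : Matrix (Fin d) (Fin p) ℝ => frob (A * X - B))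

/-- first coefficient -/
noncomputable def al (δ : ℝ) (g : Bool) : ℝ := if g then 1 else Real.sqrt (δ / 2)

/-- second coefficient -/
noncomputable def be (δ : ℝ) (g : Bool) : ℝ := if g then Real.sqrt δ else Real.sqrt (δ / 2)

/-- sign -/
noncomputable def sg (s : Bool) : ℝ := if s then 1 else -1

/-- the random matrix -/
noncomputable def Om (δ : ℝ) (s : Bool × Bool) : Matrix (Fin 2) (Fin 3) ℝ :=
  !![al δ s.1, 0, be δ s.1; 0, al δ s.1, sg s.2 * be δ s.1]

/-- the measure -/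
noncomputable def mu (δ : ℝ) : Measure (Bool × Bool) :=
  ENNReal.ofReal ((1 - δ) / 2) • (Measure.dirac (true, true) + Measure.dirac (true, false)) +
  ENNReal.ofReal (δ / 2) • (Measure.dirac (false, true) + Measure.dirac (false, false))

theorem sqn_Om (δ : ℝ) (s : Bool × Bool) (x : Fin 2 → ℝ) :
    sqn ((Om δ s)ᵀ *ᵥ x) = al δ s.1 ^ 2 * (x 0 ^ 2 + x 1 ^ 2)
      + be δ s.1 ^ 2 * (x 0 + sg s.2 * x 1) ^ 2 := by
  simp [sqn, Om, Matrix.mulVec, dotProduct, Fin.sum_univ_succ]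
  ring

theorem al_sq (δ : ℝ) (h : 0 < δ) (g : Bool) : al δ g ^ 2 = if g then 1 else δ / 2 := by
  cases g
  · show Real.sqrt (δ / 2) ^ 2 = _
    rw [Real.sq_sqrt (show 0 ≤ δ / 2 by linarith)]
    rfl
  · simp [al]

theorem be_sq (δ : ℝ) (h : 0 < δ) (g : Bool) : be δ g ^ 2 = if g then δ else δ / 2 := by
  cases g
  · show Real.sqrt (δ / 2) ^ 2 = _
    rw [Real.sq_sqrt (show 0 ≤ δ / 2 by linarith)]
    rfl
  · show Real.sqrt δ ^ 2 = _
    rw [Real.sq_sqrt h.le]
    rfl

theorem integral_mu (δ : ℝ) (h : 0 < δ) (h1 : δ < 1) (f : Bool × Bool → ℝ) :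
    ∫ s, f s ∂(mu δ) = (1 - δ) / 2 * (f (true, true) + f (true, false))
      + δ / 2 * (f (false, true) + f (false, false)) := by
  unfold mu
  have f1 : IsFiniteMeasure (ENNReal.ofReal ((1 - δ) / 2) •
      (Measure.dirac (true, true) + Measure.dirac (true, false) : Measure (Bool × Bool))) :=
    Measure.smul_finite _ ENNReal.ofReal_ne_top
  have f2 : IsFiniteMeasure (ENNReal.ofReal (δ / 2) •
      (Measure.dirac (false, true) + Measure.dirac (false, false) : Measure (Bool × Bool))) :=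
    Measure.smul_finite _ ENNReal.ofReal_ne_top
  rw [integral_add_measure (Integrable.of_finite) (Integrable.of_finite),
    integral_smul_measure, integral_smul_measure,
    integral_add_measure (Integrable.of_finite) (Integrable.of_finite),
    integral_add_measure (Integrable.of_finite) (Integrable.of_finite),
    integral_dirac, integral_dirac, integral_dirac, integral_dirac,
    ENNReal.toReal_ofReal (by linarith), ENNReal.toReal_ofReal (by linarith)]
  simp

theorem mu_apply (δ : ℝ) (T : Set (Bool × Bool)) :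
    mu δ T = ENNReal.ofReal ((1 - δ) / 2) * (T.indicator 1 (true, true) + T.indicator 1 (true, false))
      + ENNReal.ofReal (δ / 2) * (T.indicator 1 (false, true) + T.indicator 1 (false, false)) := by
  unfold mu
  simp only [Measure.coe_add, Measure.coe_smul, Pi.add_apply, Pi.smul_apply, smul_eq_mul]
  rw [Measure.dirac_apply' _ (Set.toFinite T).measurableSet,
    Measure.dirac_apply' _ (Set.toFinite T).measurableSet,
    Measure.dirac_apply' _ (Set.toFinite T).measurableSet,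
    Measure.dirac_apply' _ (Set.toFinite T).measurableSet]

theorem mu_univ (δ : ℝ) (h : 0 < δ) (h1 : δ < 1) : mu δ Set.univ = 1 := by
  rw [mu_apply]
  simp only [Set.indicator_univ, Pi.one_apply]
  rw [show (1 : ENNReal) + 1 = ENNReal.ofReal 2 by norm_num, ← ENNReal.ofReal_mul (by linarith),
    ← ENNReal.ofReal_mul (by linarith), ← ENNReal.ofReal_add (by linarith) (by linarith)]
  rw [show (1 - δ) / 2 * 2 + δ / 2 * 2 = 1 by ring, ENNReal.ofReal_one]

theorem mu_good (δ : ℝ) (h1 : δ < 1) (T : Set (Bool × Bool)) (hT : (true, true) ∈ T)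
    (hF : (true, false) ∈ T) : ENNReal.ofReal (1 - δ) ≤ mu δ T := by
  rw [mu_apply, Set.indicator_of_mem hT, Set.indicator_of_mem hF]
  refine le_trans ?_ le_self_add
  simp only [Pi.one_apply]
  rw [show (1 : ENNReal) + 1 = ENNReal.ofReal 2 by norm_num, ← ENNReal.ofReal_mul (by linarith),
    show (1 - δ) / 2 * 2 = 1 - δ by ring]

theorem isOSI (δ ε : ℝ) (h : 0 < δ) (h1 : δ < 1) (hε : 0 < ε) :
    IsOSI (mu δ) (Om δ) 1 (1 - ε) δ := by
  refine ⟨fun i j => measurable_of_finite _, fun x => ?_, fun x => ?_, fun V _ => ?_⟩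
  · have f1 : IsFiniteMeasure (mu δ) := ⟨by rw [mu_univ δ h h1]; exact ENNReal.one_lt_top⟩
    exact Integrable.of_finite
  · rw [integral_mu δ h h1]
    simp only [sqn_Om, al_sq δ h, be_sq δ h]
    simp [sg, sqn]
    ring
  · apply mu_good δ h1
    · intro x _
      rw [sqn_Om, al_sq δ h, be_sq δ h]
      simp only [sqn, Fin.sum_univ_two, if_true]
      nlinarith [sq_nonneg (x 0), sq_nonneg (x 1), mul_nonneg h.le (sq_nonneg (x 0 + sg true * x 1)),
        mul_nonneg hε.le (sq_nonneg (x 0)), mul_nonneg hε.le (sq_nonneg (x 1))]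
    · intro x _
      rw [sqn_Om, al_sq δ h, be_sq δ h]
      simp only [sqn, Fin.sum_univ_two, if_true]
      nlinarith [sq_nonneg (x 0), sq_nonneg (x 1),
        mul_nonneg h.le (sq_nonneg (x 0 + sg false * x 1)),
        mul_nonneg hε.le (sq_nonneg (x 0)), mul_nonneg hε.le (sq_nonneg (x 1))]

/-- the data matrix -/
def AA : Matrix (Fin 2) (Fin 1) ℝ := !![1; 0]

/-- the right-hand side -/
def BB : Matrix (Fin 2) (Fin 1) ℝ := !![0; 1]

theorem AA_rank : AA.rank = 1 := by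
  have h1 : AA.rank ≤ 1 := by
    have := Matrix.rank_le_width AA
    exact this
  have h2 := Matrix.rank_submatrix_le AA (fun _ : Fin 1 => (0 : Fin 2)) (fun _ : Fin 1 => (0 : Fin 1))
  have h3 : AA.submatrix (fun _ : Fin 1 => (0 : Fin 2)) (fun _ : Fin 1 => (0 : Fin 1)) = 1 := by
    ext i j
    fin_cases i
    fin_cases j
    simp [AA]
  rw [h3, Matrix.rank_one] at h2
  simp at h2
  omega

theorem OPT_le : OPT AA BB ≤ 1 := by
  unfold OPT
  apply csInf_le
  · refine ⟨0, ?_⟩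
    rintro _ ⟨X, rfl⟩
    exact Real.sqrt_nonneg _
  · refine ⟨0, ?_⟩
    simp [frob, AA, BB]

theorem OPT_nonneg : 0 ≤ OPT AA BB := by
  unfold OPT
  apply Real.sInf_nonneg
  rintro _ ⟨X, rfl⟩
  exact Real.sqrt_nonneg _

theorem exists_pinv (δ : ℝ) (h : 0 < δ) (h1 : δ < 1) (s : Bool × Bool) :
    ∃ P : Matrix (Fin 1) (Fin 3) ℝ, IsPinv ((Om δ s)ᵀ * AA) P ∧
      Real.sqrt (1 + δ ^ 2 / 4) ≤ frob (AA * (P * ((Om δ s)ᵀ * BB)) - BB) := by
  have ha := al_sq δ h s.1
  have hb := be_sq δ h s.1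
  set a := al δ s.1 with hadef
  set b := be δ s.1 with hbdef
  have hpos : 0 < a ^ 2 + b ^ 2 := by
    rw [ha, hb]
    split_ifs <;> linarith
  have hv : (Om δ s)ᵀ * AA = !![a; 0; b] := by
    ext i j
    fin_cases i <;> fin_cases j <;> simp [Om, AA, Matrix.mul_apply, ← hadef, ← hbdef]
  have hw : (Om δ s)ᵀ * BB = !![0; a; sg s.2 * b] := by
    ext i j
    fin_cases i <;> fin_cases j <;> simp [Om, BB, Matrix.mul_apply, ← hadef, ← hbdef]
  rw [hv, hw]
  refine ⟨!![a / (a ^ 2 + b ^ 2), 0, b / (a ^ 2 + b ^ 2)], ⟨?_, ?_, ?_, ?_⟩, ?_⟩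
  · ext i j
    fin_cases i <;> fin_cases j <;> simp [Matrix.mul_apply, Fin.sum_univ_succ] <;> field_simp
  · ext i j
    fin_cases i <;> fin_cases j <;> simp [Matrix.mul_apply, Fin.sum_univ_succ] <;> field_simp
  · ext i j
    fin_cases i <;> fin_cases j <;> simp [Matrix.mul_apply, Fin.sum_univ_succ] <;> field_simp
  · ext i j
    fin_cases i
    fin_cases j
    rfl
  · apply Real.sqrt_le_sqrt
    have hval : (∑ i, ∑ j, (AA * (!![a / (a ^ 2 + b ^ 2), 0, b / (a ^ 2 + b ^ 2)] *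
        !![0; a; sg s.2 * b]) - BB) i j ^ 2) = 1 + (b ^ 2 / (a ^ 2 + b ^ 2)) ^ 2 := by
      have hs : sg s.2 ^ 2 = 1 := by
        unfold sg
        split_ifs <;> norm_num
      simp [AA, BB, Matrix.mul_apply, Fin.sum_univ_succ]
      field_simp
      rw [hs]
      ring
    rw [hval]
    have h2 : δ / 2 ≤ b ^ 2 / (a ^ 2 + b ^ 2) := by
      rw [le_div_iff₀ hpos, ha, hb]
      split_ifs <;> nlinarith
    have h3 : (δ / 2) ^ 2 ≤ (b ^ 2 / (a ^ 2 + b ^ 2)) ^ 2 := by gcongr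
    nlinarith

/-- For every fixed failure probability `δ`, every constant `C` and every `c₀ > 0` there are
parameters, matrices and an oblivious subspace injection for which the relative error bound fails
with probability greater than `1 - c₀`. -/
theorem result (δ : ℝ) (hδ : 0 < δ) (hδ1 : δ < 1) (C c₀ : ℝ) (hc₀ : 0 < c₀) :
    ∃ (n d p k : ℕ) (ε : ℝ) (A : Matrix (Fin n) (Fin d) ℝ) (B : Matrix (Fin n) (Fin p) ℝ)
      (S : Type) (_ : MeasurableSpace S) (μ : Measure S) (Om : S → Matrix (Fin n) (Fin k) ℝ),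
      0 < n ∧ 0 < d ∧ 0 < p ∧ 0 < k ∧ 0 < ε ∧ ε < 1 ∧ A.rank = d ∧ IsProbabilityMeasure μ ∧
      IsOSI μ Om d (1 - ε) δ ∧
      ENNReal.ofReal (1 - c₀) < μ {s | ∃ P : Matrix (Fin d) (Fin k) ℝ, IsPinv ((Om s)ᵀ * A) P ∧
        (1 + C * ε) * OPT A B < frob (A * (P * ((Om s)ᵀ * B)) - B)} := by
  have hK : 0 < 16 * (|C| + 1) := by positivity
  have hε0 : 0 < δ ^ 2 / (16 * (|C| + 1)) := by positivity
  refine ⟨2, 1, 1, 3, δ ^ 2 / (16 * (|C| + 1)), AA, BB, Bool × Bool, inferInstance, mu δ, Om δ,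
    by norm_num, by norm_num, by norm_num, by norm_num, hε0, ?_, AA_rank,
    ⟨mu_univ δ hδ hδ1⟩, isOSI δ _ hδ hδ1 hε0, ?_⟩
  · rw [div_lt_one hK]
    nlinarith [abs_nonneg C]
  · have hall : {s | ∃ P : Matrix (Fin 1) (Fin 3) ℝ, IsPinv ((Om δ s)ᵀ * AA) P ∧
        (1 + C * (δ ^ 2 / (16 * (|C| + 1)))) * OPT AA BB
          < frob (AA * (P * ((Om δ s)ᵀ * BB)) - BB)} = Set.univ := by
      rw [Set.eq_univ_iff_forall]
      intro s
      obtain ⟨P, hP, hP2⟩ := exists_pinv δ hδ hδ1 s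
      refine ⟨P, hP, lt_of_lt_of_le ?_ hP2⟩
      have h1 : C * (δ ^ 2 / (16 * (|C| + 1))) ≤ δ ^ 2 / 16 := by
        have h2 : C * (δ ^ 2 / (16 * (|C| + 1))) ≤ |C| * (δ ^ 2 / (16 * (|C| + 1))) := by
          gcongr
          exact le_abs_self C
        have h3 : |C| * (δ ^ 2 / (16 * (|C| + 1))) ≤ δ ^ 2 / 16 := by
          rw [mul_div_assoc', div_le_div_iff₀ hK (by norm_num)]
          nlinarith [abs_nonneg C, sq_nonneg δ, mul_nonneg (abs_nonneg C) (sq_nonneg δ)]
        linarith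
      have h4 : (1 + C * (δ ^ 2 / (16 * (|C| + 1)))) * OPT AA BB ≤ 1 + δ ^ 2 / 16 := by
        have h5 := OPT_nonneg
        have h6 := OPT_le
        have h7 : (1 + C * (δ ^ 2 / (16 * (|C| + 1)))) * OPT AA BB
            ≤ (1 + δ ^ 2 / 16) * OPT AA BB := by
          apply mul_le_mul_of_nonneg_right _ h5
          linarith
        nlinarith [sq_nonneg δ]
      refine lt_of_le_of_lt h4 ?_
      apply Real.lt_sqrt_of_sq_lt
      nlinarith [sq_nonneg δ, mul_pos hδ hδ, mul_pos (mul_pos hδ hδ) (sub_pos.2 hδ1),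
        mul_pos (mul_pos hδ hδ) (mul_pos hδ (sub_pos.2 hδ1))]
    rw [hall, mu_univ δ hδ hδ1]
    rw [← ENNReal.ofReal_one]
    exact (ENNReal.ofReal_lt_ofReal_iff one_pos).2 (by linarith)

end Pool.Agent.Results.MP_4d58d7_an.Disproof
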